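import Pool.Agent.helper25.TW.Spec

/-!
Row QRS of project TWO (MP_f42afa_pr): crossing probabilities are bounded away from 1.
-/

set_option autoImplicit false

namespace TP.TW

open DP MeasureTheory Finset

theorem QRS_meas {F : Set (V → Bool)} {A : Set V} (h : Loc F A) : MeasurableSet F := by
  obtain ⟨Λ, _, hd⟩ := h
  classical
  let M : Finset V := Λ.image br
  let ρ : (V → Bool) → (M → Bool) := fun b v => b v.1
  have hρ : Measurable ρ := measurable_pi_lambda _ (fun v => measurable_pi_apply v.1)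
  have hF : F = ρ ⁻¹' (ρ '' F) := by
    apply Set.Subset.antisymm (Set.subset_preimage_image ρ F)
    rintro b ⟨b', hb', he⟩
    refine (hd b' b (fun v hv => ?_)).1 hb'
    exact congrFun he ⟨br v, Finset.mem_image_of_mem br hv⟩
  rw [hF]
  exact hρ (Set.toFinite _).measurableSet

theorem QRS_aux (E F : Set (V → Bool)) (c : ℝ) (hF : MeasurableSet F)
    (hd : ∀ β, β ∈ E → β ∉ F) (hc : c ≤ Pr F) : Pr E ≤ 1 - min c 1 := by
  have hP : IsProbabilityMeasure P1 := by
    unfold P1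
    infer_instance
  have h1 : Pr E ≤ Pr Fᶜ := by
    unfold Pr
    exact measureReal_mono (fun β hβ => hd β hβ)
  have h2 : Pr Fᶜ = 1 - Pr F := by
    unfold Pr
    exact probReal_compl_eq_one_sub hF
  have h3 : min c 1 ≤ c := min_le_left _ _
  linarith

theorem QRS (rsw : RSW_stmt) (rc : DP.RC_stmt) (rlm : RLM_stmt) (lcr : LCR_stmt) :
    QRS_stmt := by
  obtain ⟨c, hc, L, hL, h⟩ := rsw
  refine ⟨min c 1, lt_min hc one_pos, min_le_right _ _, L, hL, ?_⟩
  intro k a b d e hab hde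
  obtain ⟨h1, h2⟩ := h (!k) a b d e hab hde
  obtain ⟨lh, lv, _, _⟩ := rlm (!k) a b d e
  constructor
  · intro hl hr
    refine QRS_aux _ _ c (QRS_meas lh) ?_ (h1 hl hr)
    rintro β ⟨u', v', huv', hC'⟩ ⟨u, v, hu, hv, hC⟩
    rw [if_pos rfl] at huv'
    obtain ⟨w, hw, hw'⟩ := rc a b d e _ _ (fun w hw => hw.1) (fun w hw => hw.1.1)
      u v u' v' hu hv huv'.1 huv'.2 hC hC'
    have e1 : TP.col β w = !k := hw.2
    have e2 : TP.col β w = k := hw'.2
    rw [e2] at e1
    cases k <;> simp at e1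
  · intro hl hr
    refine QRS_aux _ _ c (QRS_meas lv) ?_ (h2 hl hr)
    rintro β ⟨u', v', huv', hC'⟩ ⟨u, v, hu, hv, hC⟩
    have huv : u'.1 = a ∧ v'.1 = b := huv'
    obtain ⟨w, hw', hw⟩ := rc a b d e _ _ (fun w hw => hw.1.1) (fun w hw => hw.1)
      u' v' u v huv.1 huv.2 hu hv hC' hC
    have e1 : TP.col β w = !k := hw.2
    have e2 : TP.col β w = k := hw'.2
    rw [e2] at e1
    cases k <;> simp at e1

end TP.TW
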